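import Pool.Agent.P8H92.KB.Stm2

/-! # Project KB, second part, package HOE: Hoeffding's inequality for finite product laws -/

set_option autoImplicit false

namespace Pool.Agent.P8H69.KC

open Finset
open Pool.Agent.P8H92.KB

/-- One variable. -/
theorem one {J : Type} [Fintype J] (p u : J → ℝ) (R h : ℝ) (hp : ∀ j, 0 ≤ p j) (h1 : ∑ j, p j = 1)
    (hu : ∀ j, |u j| ≤ R) (h0 : ∑ j, p j * u j = 0) :
    ∑ j, p j * Real.exp (-(h * u j)) ≤ Real.exp ((h * R) ^ 2 / 2) := by
  have hne : Nonempty J := by
    by_contra hemp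
    rw [not_nonempty_iff] at hemp
    rw [Finset.univ_eq_empty, Finset.sum_empty] at h1
    exact zero_ne_one h1
  obtain ⟨j₀⟩ := hne
  have hR : 0 ≤ R := (abs_nonneg _).trans (hu j₀)
  rcases hR.eq_or_lt with h2 | h2
  · have hz : ∀ j, u j = 0 := by
      intro j
      have := hu j
      rw [← h2] at this
      exact abs_eq_zero.1 (le_antisymm this (abs_nonneg _))
    have : ∑ j, p j * Real.exp (-(h * u j)) = 1 := by
      rw [← h1]
      refine sum_congr rfl fun j _ => ?_
      rw [hz j]
      simp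
    rw [this, ← h2]
    simp
  · have hk : ∀ j, p j * Real.exp (-(h * u j)) ≤
        p j * ((Real.exp (-(h * R)) + Real.exp (h * R)) / 2)
          + p j * u j * ((Real.exp (-(h * R)) - Real.exp (h * R)) / (2 * R)) := by
      intro j
      have hj := abs_le.1 (hu j)
      have ha : 0 ≤ (1 + u j / R) / 2 := by
        have : -1 ≤ u j / R := by
          rw [le_div_iff₀ h2]
          linarith [hj.1]
        linarith
      have hb : 0 ≤ (1 - u j / R) / 2 := by
        have : u j / R ≤ 1 := by
          rw [div_le_iff₀ h2]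
          linarith [hj.2]
        linarith
      have hc := convexOn_exp.2 (Set.mem_univ (-(h * R))) (Set.mem_univ (h * R)) ha hb (by ring)
      simp only [smul_eq_mul] at hc
      have he : (1 + u j / R) / 2 * -(h * R) + (1 - u j / R) / 2 * (h * R) = -(h * u j) := by
        field_simp
        ring
      rw [he] at hc
      have := mul_le_mul_of_nonneg_left hc (hp j)
      refine this.trans (le_of_eq ?_)
      field_simp
      ring
    calc ∑ j, p j * Real.exp (-(h * u j))
        ≤ ∑ j, (p j * ((Real.exp (-(h * R)) + Real.exp (h * R)) / 2)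
          + p j * u j * ((Real.exp (-(h * R)) - Real.exp (h * R)) / (2 * R))) :=
          sum_le_sum fun j _ => hk j
      _ = Real.cosh (h * R) := by
          rw [Finset.sum_add_distrib, ← Finset.sum_mul, ← Finset.sum_mul, h1, h0, Real.cosh_eq]
          ring
      _ ≤ Real.exp ((h * R) ^ 2 / 2) := Real.cosh_le_exp_half_sq _

theorem hoe : S_HOE := by
  intro ι _ _ J _ p y r hp h1 hy hr t ht
  obtain ⟨S, hS⟩ : ∃ S : ℝ, S = ∑ i, r i ^ 2 := ⟨_, rfl⟩
  rw [← hS] at hr ⊢
  obtain ⟨h, hh⟩ : ∃ h : ℝ, h = t / (4 * S) := ⟨_, rfl⟩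
  have hh0 : 0 ≤ h := by
    rw [hh]
    positivity
  obtain ⟨u, hu⟩ : ∃ u : ∀ i, J i → ℝ, u = fun i j => y i j - ∑ j, p i j * y i j := ⟨_, rfl⟩
  have hu' : ∀ i j, u i j = y i j - ∑ j, p i j * y i j := fun i j => by rw [hu]
  have hm : ∀ i, |∑ j, p i j * y i j| ≤ r i := by
    intro i
    calc |∑ j, p i j * y i j| ≤ ∑ j, |p i j * y i j| := Finset.abs_sum_le_sum_abs _ _
      _ ≤ ∑ j, p i j * r i := by
          refine sum_le_sum fun j _ => ?_
          rw [abs_mul, abs_of_nonneg (hp i j)]
          exact mul_le_mul_of_nonneg_left (hy i j) (hp i j)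
      _ = r i := by rw [← Finset.sum_mul, h1, one_mul]
  have hub : ∀ i j, |u i j| ≤ 2 * r i := by
    intro i j
    rw [hu']
    refine (abs_sub _ _).trans ?_
    linarith [hy i j, hm i]
  have hu0 : ∀ i, ∑ j, p i j * u i j = 0 := by
    intro i
    have : ∑ j, p i j * u i j = ∑ j, p i j * y i j - (∑ j, p i j) * ∑ j, p i j * y i j := by
      rw [Finset.sum_mul, ← Finset.sum_sub_distrib]
      refine sum_congr rfl fun j _ => ?_
      rw [hu', mul_sub]
    rw [this, h1, one_mul, sub_self]
  have hone : ∀ i, ∑ j, p i j * Real.exp (-(h * u i j)) ≤ Real.exp ((h * (2 * r i)) ^ 2 / 2) :=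
    fun i => one (p i) (u i) (2 * r i) h (hp i) (h1 i) (hub i) (hu0 i)
  calc ∑ w : (∀ i, J i), (if ∑ i, y i (w i) ≤ (∑ i, ∑ j, p i j * y i j) - t
        then ∏ i, p i (w i) else 0)
      ≤ ∑ w : (∀ i, J i), Real.exp (-(h * t)) * ∏ i, (p i (w i) * Real.exp (-(h * u i (w i)))) := by
        refine sum_le_sum fun w _ => ?_
        have hP : 0 ≤ ∏ i, p i (w i) := Finset.prod_nonneg fun i _ => hp i (w i)
        rw [Finset.prod_mul_distrib, ← Real.exp_sum]
        split_ifs with hw
        · have h3 : 1 ≤ Real.exp (-(h * t)) * Real.exp (∑ i, -(h * u i (w i))) := by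
            rw [← Real.exp_add, Real.one_le_exp_iff, Finset.sum_neg_distrib, ← Finset.mul_sum]
            have h4 : ∑ i, u i (w i) = ∑ i, y i (w i) - ∑ i, ∑ j, p i j * y i j := by
              rw [← Finset.sum_sub_distrib]
              exact sum_congr rfl fun i _ => hu' i (w i)
            rw [h4]
            nlinarith [mul_nonneg hh0 (sub_nonneg.2 hw)]
          calc ∏ i, p i (w i) = (∏ i, p i (w i)) * 1 := (mul_one _).symm
            _ ≤ (∏ i, p i (w i)) * (Real.exp (-(h * t)) * Real.exp (∑ i, -(h * u i (w i)))) :=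
                mul_le_mul_of_nonneg_left h3 hP
            _ = _ := by ring
        · positivity
    _ = Real.exp (-(h * t)) * ∏ i, ∑ j, p i j * Real.exp (-(h * u i j)) := by
        rw [← Finset.mul_sum, Finset.prod_univ_sum, Fintype.piFinset_univ]
    _ ≤ Real.exp (-(h * t)) * ∏ i, Real.exp ((h * (2 * r i)) ^ 2 / 2) := by
        apply mul_le_mul_of_nonneg_left _ (Real.exp_pos _).le
        refine Finset.prod_le_prod (fun i _ => ?_) fun i _ => hone i
        exact Finset.sum_nonneg fun j _ => mul_nonneg (hp i j) (Real.exp_pos _).le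
    _ = Real.exp (-(t ^ 2 / (8 * S))) := by
        rw [← Real.exp_sum, ← Real.exp_add]
        congr 1
        have h5 : ∑ i, (h * (2 * r i)) ^ 2 / 2 = 2 * h ^ 2 * S := by
          rw [hS, Finset.mul_sum]
          refine sum_congr rfl fun i _ => ?_
          ring
        rw [h5, hh]
        field_simp
        ring

end Pool.Agent.P8H69.KC
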