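import Pool.Agent.P8H92.KB.Stm3

/-! # Project KB, third part, package KLD: from the relative entropy to a bounded function -/

set_option autoImplicit false

namespace Pool.Agent.P8H69.KC

open MeasureTheory InformationTheory
open Pool.Agent.P8H92.KB

theorem kld : S_KLD := by
  intro Ω _ P Q _ _ K hK hkl
  have hfin : klDiv Q P ≠ ⊤ := ne_top_of_le_ne_top ENNReal.ofReal_ne_top hkl
  obtain ⟨hac, hint⟩ := klDiv_ne_top_iff.1 hfin
  obtain ⟨f, hf⟩ : ∃ f : Ω → ENNReal, f = Q.rnDeriv P := ⟨_, rfl⟩
  have hfm : Measurable f := by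
    rw [hf]
    exact Measure.measurable_rnDeriv Q P
  obtain ⟨g, hg⟩ : ∃ g : Ω → ℝ, g = fun x => (f x).toReal := ⟨_, rfl⟩
  have hgm : Measurable g := by
    rw [hg]
    exact hfm.ennreal_toReal
  have hg0 : ∀ x, 0 ≤ g x := fun x => by
    rw [hg]
    exact ENNReal.toReal_nonneg
  have hgi : Integrable g P := by
    rw [hg, hf]
    exact Measure.integrable_toReal_rnDeriv
  have hgs : ∀ s : Set Ω, ∫ x in s, g x ∂P = Q.real s := by
    intro s
    rw [hg, hf]
    exact Measure.setIntegral_toReal_rnDeriv hac s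
  have hki : Integrable (fun x => klFun (g x)) P := by
    rw [hg, hf]
    exact (integrable_klFun_rnDeriv_iff hac).2 hint
  have hkK : ∫ x, klFun (g x) ∂P ≤ K := by
    have h1 := toReal_klDiv_eq_integral_klFun hac
    rw [← hf] at h1
    rw [hg]
    rw [← h1]
    calc (klDiv Q P).toReal ≤ (ENNReal.ofReal K).toReal :=
          ENNReal.toReal_mono ENNReal.ofReal_ne_top hkl
      _ = K := ENNReal.toReal_ofReal hK
  obtain ⟨M, hM⟩ : ∃ M : ℝ, M = Real.exp (2 * K + 3) := ⟨_, rfl⟩
  have hM0 : 0 < M := by
    rw [hM]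
    exact Real.exp_pos _
  have hM1 : 1 ≤ M := by
    rw [hM]
    exact Real.one_le_exp (by linarith)
  obtain ⟨A, hA⟩ : ∃ A : Set Ω, A = {x | M < g x} := ⟨_, rfl⟩
  have hAm : MeasurableSet A := by
    rw [hA]
    exact measurableSet_lt measurable_const hgm
  have hQA : Q.real A ≤ 1 / 2 := by
    have h1 : (2 * K + 2) * Q.real A ≤ K := by
      calc (2 * K + 2) * Q.real A = ∫ x in A, (2 * K + 2) * g x ∂P := by
            rw [integral_const_mul, hgs]
        _ ≤ ∫ x in A, klFun (g x) ∂P := by
            refine setIntegral_mono_on (hgi.integrableOn.const_mul _) hki.integrableOn hAm ?_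
            intro x hx
            rw [hA] at hx
            have hx' : M < g x := hx
            have hgx : 0 < g x := hM0.trans hx'
            have h2 : 2 * K + 3 ≤ Real.log (g x) := by
              rw [Real.le_log_iff_exp_le hgx, ← hM]
              exact hx'.le
            have h3 := mul_le_mul_of_nonneg_left h2 hgx.le
            rw [klFun_apply]
            nlinarith [h3]
        _ ≤ ∫ x, klFun (g x) ∂P :=
            setIntegral_le_integral hki (Filter.Eventually.of_forall fun x => klFun_nonneg (hg0 x))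
        _ ≤ K := hkK
    have h2 : 0 ≤ Q.real A := measureReal_nonneg
    nlinarith [h1, h2]
  have hQAc : 1 / 2 ≤ Q.real Aᶜ := by
    have := measureReal_compl (μ := Q) hAm
    rw [this]
    have h1 : Q.real Set.univ = 1 := by simp
    rw [h1]
    linarith
  obtain ⟨d, hd⟩ : ∃ d : Ω → ℝ, d = fun x => min (g x / M) 1 := ⟨_, rfl⟩
  have hdm : Measurable d := by
    rw [hd]
    exact (hgm.div_const M).min measurable_const
  have hd0 : ∀ x, 0 ≤ d x := by
    intro x
    rw [hd]
    exact le_min (div_nonneg (hg0 x) hM0.le) zero_le_one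
  have hd1 : ∀ x, d x ≤ 1 := by
    intro x
    rw [hd]
    exact min_le_right _ _
  have hdg : ∀ x, d x ≤ g x := by
    intro x
    rw [hd]
    refine (min_le_left _ _).trans ?_
    rw [div_le_iff₀ hM0]
    nlinarith [mul_nonneg (hg0 x) (sub_nonneg.2 hM1)]
  have hdi : Integrable d P :=
    hgi.mono' hdm.aestronglyMeasurable (Filter.Eventually.of_forall fun x => by
      rw [Real.norm_eq_abs, abs_of_nonneg (hd0 x)]
      exact hdg x)
  refine ⟨d, hdm, hd0, hd1, ?_, ?_⟩
  · have h1 : ∫ x in Aᶜ, g x / M ∂P ≤ ∫ x, d x ∂P := by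
      calc ∫ x in Aᶜ, g x / M ∂P = ∫ x in Aᶜ, d x ∂P := by
            refine setIntegral_congr_fun hAm.compl fun x hx => ?_
            rw [hA] at hx
            have hx' : g x ≤ M := not_lt.1 hx
            rw [hd]
            show g x / M = min (g x / M) 1
            rw [min_eq_left]
            rw [div_le_one hM0]
            exact hx'
        _ ≤ ∫ x, d x ∂P := setIntegral_le_integral hdi (Filter.Eventually.of_forall hd0)
    rw [integral_div, hgs] at h1
    refine le_trans ?_ h1
    rw [le_div_iff₀ hM0, hM, ← Real.exp_add]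
    have h2 : -(2 * K + 4) + (2 * K + 3) = (-1 : ℝ) := by ring
    rw [h2]
    refine le_trans ?_ hQAc
    rw [Real.exp_neg, one_div]
    apply inv_anti₀ (by norm_num)
    have := Real.add_one_le_exp (1 : ℝ)
    linarith
  · intro B hB
    have hQ : Q = P.withDensity f := by
      rw [hf]
      exact (Measure.withDensity_rnDeriv_eq Q P hac).symm
    have hQQ : (Q.prod Q) B = ∫⁻ p in B, f p.1 * f p.2 ∂(P.prod P) := by
      rw [hQ, prod_withDensity hfm hfm, withDensity_apply _ hB]
    have hnn : ∀ p : Ω × Ω, 0 ≤ B.indicator (fun p => d p.1 * d p.2) p := fun p =>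
      Set.indicator_nonneg (fun p _ => mul_nonneg (hd0 p.1) (hd0 p.2)) p
    rw [integral_eq_lintegral_of_nonneg_ae (Filter.Eventually.of_forall hnn)
      (((hdm.comp measurable_fst).mul (hdm.comp measurable_snd)).indicator hB).aestronglyMeasurable]
    rw [measureReal_def]
    refine ENNReal.toReal_mono (measure_ne_top _ _) ?_
    rw [hQQ, ← lintegral_indicator hB]
    refine lintegral_mono fun p => ?_
    by_cases hp : p ∈ B
    · rw [Set.indicator_of_mem hp, Set.indicator_of_mem hp, ENNReal.ofReal_mul (hd0 p.1)]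
      have h1 : ∀ x, ENNReal.ofReal (d x) ≤ f x := by
        intro x
        refine (ENNReal.ofReal_le_ofReal (hdg x)).trans ?_
        rw [hg]
        exact ENNReal.ofReal_toReal_le
      exact mul_le_mul' (h1 p.1) (h1 p.2)
    · rw [Set.indicator_of_notMem hp, Set.indicator_of_notMem hp]
      simp

end Pool.Agent.P8H69.KC
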